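import Pool.Agent.H74.TQ.Stmts

/-!
# Two queries, module LTB: the lexicographic order
-/

set_option autoImplicit false

namespace Pool.TQ

open TMLib Polynomial

namespace LTB

/-- one step of the comparison: `none` = equal so far -/
def lstep (s : Option Bool) (p : Bool × Bool) : Option Bool :=
  match s with
  | none => if (p.1 == p.2) = true then none else some (!p.1 && p.2)
  | some b => some b

lemma fold_some (b : Bool) (L : List (Bool × Bool)) : L.foldl lstep (some b) = some b := by
  induction L with
  | nil => rfl
  | cons p L ih => rw [List.foldl_cons]; exact ih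

lemma fold_eq : ∀ l l' : List Bool, ((l.zip l').foldl lstep none).getD false = ltb l l'
  | [], [] => rfl
  | [], _ :: _ => rfl
  | _ :: _, [] => rfl
  | a :: l, a' :: l' => by
    have ih := fold_eq l l'
    rw [List.zip_cons_cons, List.foldl_cons, ltb]
    cases a <;> cases a'
    · simpa [lstep] using ih
    · simp [lstep, fold_some]
    · simp [lstep, fold_some]
    · simpa [lstep] using ih

lemma sz_ob (s : Option Bool) : sz s ≤ 5 := by
  cases s with
  | none => simp
  | some b => have := sz_bool_le b; rw [sz_some]; omega

lemma ptime : PTime (fun p : List Bool × List Bool => ltb p.1 p.2) := by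
  have h1 : PTime (fun p : (List Bool × List Bool) × Option Bool × (Bool × Bool) =>
      lstep p.2.1 p.2.2) := by
    have h2 : PTime (fun p : (List Bool × List Bool) × Option Bool × (Bool × Bool) =>
        if (p.2.2.1 == p.2.2.2) = true then none else some (!p.2.2.1 && p.2.2.2)) := by
      refine PTime.ite ?_ (PTime.const none) ?_
      · refine PTime.congr (f := fun p : (List Bool × List Bool) × Option Bool × (Bool × Bool) =>
          decide (p.2.2.1 = p.2.2.2)) (by fun_prop) fun p => ?_
        rw [decide_eq_decide, beq_iff_eq]
      · fun_prop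
    refine PTime.congr (PTime.optCases (o := fun p : (List Bool × List Bool) × Option Bool ×
      (Bool × Bool) => p.2.1) (by fun_prop) h2
      (g := fun _ b => some b) (by fun_prop)) fun p => ?_
    unfold lstep
    cases p.2.1 <;> rfl
  have h3 := PTime.foldl (f := fun (_ : List Bool × List Bool) s b => lstep s b)
    (init := fun _ => none) (l := fun p => p.1.zip p.2) h1 (PTime.const none)
    (PTime.zip (PTime.fst PTime.id) (PTime.snd PTime.id)) (h := fun _ => 5) (PB.const 5)
    (fun _ _ _ => sz_ob _)
  exact (PTime.getD h3 (PTime.const false)).congr fun p => (fold_eq p.1 p.2).symm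

lemma irrefl : ∀ l, ltb l l = false
  | [] => rfl
  | a :: l => by
    rw [ltb, irrefl l]
    cases a <;> rfl

lemma trans' : ∀ l l' l'', ltb l l' = true → ltb l' l'' = true → ltb l l'' = true
  | [], _, _ => by intro h; simp [ltb] at h
  | _ :: _, [], _ => by intro h; simp [ltb] at h
  | _ :: _, _ :: _, [] => by intro _ h; simp [ltb] at h
  | a :: l, a' :: l', a'' :: l'' => by
    have ih := trans' l l' l''
    simp only [ltb]
    cases a <;> cases a' <;> cases a'' <;> simp_all

lemma total : ∀ l l' : List Bool, l.length = l'.length →
    ltb l l' = true ∨ l = l' ∨ ltb l' l = true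
  | [], [] => fun _ => Or.inr (Or.inl rfl)
  | [], _ :: _ => by simp
  | _ :: _, [] => by simp
  | a :: l, a' :: l' => by
    intro h
    have ih := total l l' (by simpa using h)
    simp only [ltb]
    cases a <;> cases a' <;> simp_all

lemma append : ∀ u v u' v' : List Bool, u.length = u'.length →
    ltb (u ++ v) (u' ++ v') = (ltb u u' || (decide (u = u') && ltb v v'))
  | [], v, [], v' => by simp [ltb]
  | [], _, _ :: _, _ => by simp
  | _ :: _, _, [], _ => by simp
  | a :: u, v, a' :: u', v' => by
    intro h
    have ih := append u v u' v' (by simpa using h)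
    simp only [List.cons_append, ltb, ih]
    cases a <;> cases a' <;> simp

lemma zeros : ∀ (l : List Bool) (k : ℕ), ltb l (List.replicate k false) = false
  | [], _ => by simp [ltb]
  | _ :: _, 0 => by simp [ltb]
  | a :: l, k + 1 => by
    rw [List.replicate_succ, ltb, zeros l k]
    cases a <;> rfl

end LTB

theorem ltb_thm : S_LTB :=
  ⟨LTB.ptime, LTB.irrefl, LTB.trans', LTB.total, LTB.append, LTB.zeros⟩

end Pool.TQ
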