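import Pool.Agent.H74.TQ.Stmts

/-!
# Two queries, module SIM: simulation of the oracle by an algorithm with a key
-/

set_option autoImplicit false

namespace Pool.TQ

open TMLib Polynomial

namespace SIM

/-- simulated transcript -/
def simT {α κ : Type} (A : κ × Form → Bool) (Q : α × List Bool → Form) (p : κ × α) (n : ℕ) :
    List Bool :=
  Nat.rec (motive := fun _ => List Bool) [] (fun _ c => c ++ [A (p.1, Q (p.2, c))]) n

lemma simT_succ {α κ : Type} (A : κ × Form → Bool) (Q : α × List Bool → Form) (p : κ × α)
    (n : ℕ) : simT A Q p (n + 1) = simT A Q p n ++ [A (p.1, Q (p.2, simT A Q p n))] := rfl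

lemma simT_length {α κ : Type} (A : κ × Form → Bool) (Q : α × List Bool → Form) (p : κ × α)
    (n : ℕ) : (simT A Q p n).length = n := by
  induction n with
  | zero => rfl
  | succ n ih => rw [simT_succ, List.length_append, ih]; rfl

end SIM

open SIM in
theorem sim : S_SIM := by
  intro α β κ _ _ _ f hf A hA
  obtain ⟨Q, O, P, hQ, hO, hP⟩ := hf
  obtain ⟨BQ, hBQ⟩ := hQ.exists_size_le
  refine ⟨fun p => O (p.2, simT A Q p (P.eval (sz p.2))), BQ.comp (2 + X + 4 * P), ?_, ?_⟩
  · have hn : PTime (fun p : κ × α => P.eval (sz p.2)) :=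
      PTime.polyEval P (PTime.sz' (PTime.snd PTime.id))
    have h1 : PTime (fun p : κ × α => simT A Q p (P.eval (sz p.2))) := by
      unfold simT
      refine PTime.natRec (f := fun _ : κ × α => ([] : List Bool))
        (g := fun p _ c => c ++ [A (p.1, Q (p.2, c))]) (n := fun p => P.eval (sz p.2))
        (PTime.const _) ?_ hn (h := fun p => 1 + 4 * P.eval (sz p.2)) ?_ ?_
      · have h2 : PTime (fun p : (κ × α) × ℕ × List Bool => Q (p.1.2, p.2.2)) :=
          hQ.comp (f := fun p : (κ × α) × ℕ × List Bool => (p.1.2, p.2.2))
            (PTime.pair (PTime.snd (PTime.fst PTime.id)) (PTime.snd (PTime.snd PTime.id)))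
        have h3 : PTime (fun p : (κ × α) × ℕ × List Bool => A (p.1.1, Q (p.1.2, p.2.2))) :=
          hA.comp (f := fun p : (κ × α) × ℕ × List Bool => (p.1.1, Q (p.1.2, p.2.2)))
            (PTime.pair (PTime.fst (PTime.fst PTime.id)) h2)
        exact PTime.append (PTime.snd (PTime.snd PTime.id)) (PTime.cons h3 (PTime.const []))
      · exact (PB.const 1).add ((PB.const 4).mul (PB.poly (PTime.snd PTime.id).pb P))
      · intro p i hi
        have h2 := sz_bits_le (simT A Q p i)
        rw [simT_length] at h2
        exact h2.trans (by omega)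
    exact hO.comp (f := fun p : κ × α => (p.2, simT A Q p (P.eval (sz p.2))))
      (PTime.pair (PTime.snd PTime.id) h1)
  · intro k x hk
    have h1 : ∀ n, n ≤ P.eval (sz x) → simT A Q (k, x) n = trans Q x n := by
      intro n
      induction n with
      | zero => intro _; rfl
      | succ n ih =>
        intro hn
        rw [simT_succ, ih (by omega), trans]
        congr 2
        refine hk _ ?_
        refine (hBQ _).trans ?_
        rw [eval_comp]
        refine eval_mono BQ ?_
        have h2 := sz_bits_le (trans Q x n)
        rw [trans_length] at h2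
        have e2 : eval (sz x) (2 : ℕ[X]) = 2 := by simp
        have e4 : eval (sz x) (4 : ℕ[X]) = 4 := by simp
        simp only [sz_pair, eval_add, eval_mul, eval_X, e4, e2]
        omega
    simp only
    rw [h1 _ le_rfl]
    exact hP x _ le_rfl

end Pool.TQ
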